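import Mathlib
import Pool.Agent.H7.OPP.Stmts

set_option autoImplicit false

namespace Pool.OPP

open scoped Topology ComplexConjugate

noncomputable section

theorem MU_lt {k : ℕ} {s : JI} (hs : s ∈ JJ k) : ∀ i ∈ s.2, i < k := by
  intro i hi
  unfold JJ at hs
  rw [Finset.mem_product, Finset.mem_powerset] at hs
  exact Finset.mem_range.1 (hs.2 hi)

theorem MU_succ {k : ℕ} {s : JI} (hs : s ∈ JJ k) : s ∈ JJ (k + 1) := by
  unfold JJ at hs ⊢
  rw [Finset.mem_product, Finset.mem_powerset] at hs ⊢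
  exact ⟨hs.1, hs.2.trans (Finset.range_mono (Nat.le_succ k))⟩

theorem MU_jn {k : ℕ} {s : JI} (hs : s ∈ JJ k) : jn s {k} ∈ JJ (k + 1) := by
  unfold JJ at hs ⊢
  rw [Finset.mem_product, Finset.mem_powerset] at hs ⊢
  refine ⟨Finset.mem_univ _, ?_⟩
  show s.2 ∪ {k} ⊆ Finset.range (k + 1)
  refine Finset.union_subset (hs.2.trans (Finset.range_mono (Nat.le_succ k))) ?_
  rw [Finset.singleton_subset_iff, Finset.mem_range]
  exact Nat.lt_succ_self k

theorem MU_sup {k : ℕ} {s : JI} (hs : s ∈ JJ k) : (jn s {k}).2.sup id = k := by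
  show (s.2 ∪ {k}).sup id = k
  rw [Finset.sup_union, Finset.sup_singleton]
  apply sup_eq_right.2
  apply Finset.sup_le
  intro i hi
  exact (MU_lt hs i hi).le

theorem MU_ne (k : ℕ) (s : JI) : (jn s {k}).2.Nonempty :=
  ⟨k, Finset.mem_union_right _ (Finset.mem_singleton_self k)⟩

theorem MU_wt {k : ℕ} {s : JI} (hs : s ∈ JJ k) : wt (jn s {k}) = some (k + 1) := by
  unfold wt
  rw [if_pos (MU_ne k s), MU_sup hs]

theorem MU_typ {k : ℕ} {s : JI} (hs : s ∈ JJ k) (ht : (typ s : ℕ) = k % (hh + 1)) :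
    typ (jn s {k}) = typ s := by
  apply Fin.ext
  rw [ht]
  unfold typ
  rw [if_pos (MU_ne k s), MU_sup hs]
  rfl

/-- coordinate function -/
def MU_x (j : ℕ) (b : Fin (NN j)) : C(SS, ℂ) :=
  ⟨fun x => (x j : EuclideanSpace ℂ (Fin (NN j))) b, by
    have h1 : Continuous fun x : SS => (x j : EuclideanSpace ℂ (Fin (NN j))) :=
      continuous_subtype_val.comp (continuous_apply j)
    exact (PiLp.continuous_apply 2 (fun _ : Fin (NN j) => ℂ) b).comp h1⟩

theorem MU_x_act (j : ℕ) (b : Fin (NN j)) (γ : ℕ → ZMod 3) (x : SS) :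
    MU_x j b (act γ x) = om ^ (γ j).val * MU_x j b x := by
  show (om ^ (γ j).val • (x j : EuclideanSpace ℂ (Fin (NN j)))) b = _
  rw [PiLp.smul_apply, smul_eq_mul]
  rfl

theorem MU_x_sum (j : ℕ) (x : SS) : ∑ b, star (MU_x j b x) * MU_x j b x = 1 := by
  have h1 : ‖(x j : EuclideanSpace ℂ (Fin (NN j)))‖ = 1 := norm_eq_of_mem_sphere _
  have h2 := EuclideanSpace.norm_sq_eq (x j : EuclideanSpace ℂ (Fin (NN j)))
  rw [h1] at h2
  have h3 : ∀ b, star (MU_x j b x) * MU_x j b x
      = ((‖(x j : EuclideanSpace ℂ (Fin (NN j))) b‖ ^ 2 : ℝ) : ℂ) := by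
    intro b
    show conj ((x j : EuclideanSpace ℂ (Fin (NN j))) b) * (x j : EuclideanSpace ℂ (Fin (NN j))) b = _
    rw [mul_comm, Complex.mul_conj, Complex.normSq_eq_norm_sq]
  rw [Finset.sum_congr rfl (fun b _ => h3 b), ← Complex.ofReal_sum, ← h2]
  norm_num

theorem MU_core (hGa : SGa) (hLev : SLev) (k : ℕ) (s : JI) (hs : s ∈ JJ k)
    (ι : Type) [Fintype ι] (h : ι → C(SS, ℂ)) (hA : ∀ i, Adm (jn s {k}) s (h i))
    (hsum : ∀ x, ∑ i, star (h i x) * h i x = 1) :
    ∃ (n : ℕ) (D : Fin n → BB),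
    (∀ i, D i ∈ AA) ∧ (∀ i, GG (k + 1) (jn s {k}) (jn s {k}) 1 * D i = D i) ∧
    ∑ i, star (D i) * D i = GG (k + 1) s s 1 := by
  classical
  have hs1 := MU_succ hs
  have hj1 := MU_jn hs
  refine ⟨Fintype.card ι, fun i => GG (k + 1) (jn s {k}) s (h ((Fintype.equivFin ι).symm i)),
    ?_, ?_, ?_⟩
  · intro i
    have h1 : Lev (k + 1) (GG (k + 1) (jn s {k}) s (h ((Fintype.equivFin ι).symm i))) :=
      hLev.2.2.2.2.1 (k + 1) _ hj1 _ hs1 _ (hA _)
    exact StarSubalgebra.le_topologicalClosure _ ((hLev.2.2.2.2.2 _).2 ⟨_, h1⟩)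
  · intro i
    have h1 := (hGa (k + 1) (jn s {k}) (jn s {k}) hj1 hj1 1).2.1 (jn s {k}) s hj1 hs1
      (h ((Fintype.equivFin ι).symm i))
    rw [if_pos rfl, one_mul] at h1
    exact h1
  · have hz : GG (k + 1) s s 0 = 0 := by
      have h1 := (hGa (k + 1) s s hs1 hs1 0).2.2.2.1 0
      have h2 : (0 : ℂ) • GG (k + 1) s s 0 = 0 := zero_smul ℂ _
      exact (congrArg (GG (k + 1) s s) (smul_zero (0 : ℂ))).symm.trans (h1.symm.trans h2)
    have hadd : ∀ (S : Finset ι) (g : ι → C(SS, ℂ)),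
        ∑ i ∈ S, GG (k + 1) s s (g i) = GG (k + 1) s s (∑ i ∈ S, g i) := by
      intro S g
      induction S using Finset.induction_on with
      | empty => simp [hz]
      | insert a S ha ih =>
        rw [Finset.sum_insert ha, Finset.sum_insert ha, ih,
          (hGa (k + 1) s s hs1 hs1 (g a)).2.2.1]
    have h1 : ∀ i : ι, star (GG (k + 1) (jn s {k}) s (h i)) * GG (k + 1) (jn s {k}) s (h i)
        = GG (k + 1) s s (star (h i) * h i) := by
      intro i
      rw [(hGa (k + 1) (jn s {k}) s hj1 hs1 (h i)).1]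
      have h2 := (hGa (k + 1) s (jn s {k}) hs1 hj1 (star (h i))).2.1 (jn s {k}) s hj1 hs1 (h i)
      rw [if_pos rfl] at h2
      exact h2
    have h2 : ∑ i, star (GG (k + 1) (jn s {k}) s (h ((Fintype.equivFin ι).symm i)))
        * GG (k + 1) (jn s {k}) s (h ((Fintype.equivFin ι).symm i))
        = ∑ i : ι, star (GG (k + 1) (jn s {k}) s (h i)) * GG (k + 1) (jn s {k}) s (h i) :=
      Equiv.sum_comp (Fintype.equivFin ι).symm
        (fun i => star (GG (k + 1) (jn s {k}) s (h i)) * GG (k + 1) (jn s {k}) s (h i))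
    rw [h2, Finset.sum_congr rfl (fun i _ => h1 i), hadd]
    congr 1
    apply ContinuousMap.ext
    intro x
    rw [ContinuousMap.coe_sum, Finset.sum_apply]
    exact hsum x

theorem sMu (hGa : SGa) (hLev : SLev) (hAdm : SAdm) : SMu := by
  refine ⟨?_, ?_, ?_⟩
  · intro k s hs t ht
    have h0 := hAdm.2.2.2.2.2.2.2 k s hs t ht 1
    have h1 : Lev (k + 1) (GG (k + 1) (jn s {k}) (jn t {k}) (ContinuousMap.const SS 1)) :=
      hLev.2.2.2.2.1 (k + 1) _ (MU_jn hs) _ (MU_jn ht) _ h0
    exact StarSubalgebra.le_topologicalClosure _ ((hLev.2.2.2.2.2 _).2 ⟨_, h1⟩)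
  · intro k s hs ht
    have htyp := MU_typ hs ht
    rcases hw : wt s with _ | j
    · refine MU_core hGa hLev k s hs (Fin (NN (k + 1))) (fun b => MU_x (k + 1) b) ?_ ?_
      · intro b
        refine ⟨?_, ?_, k + 2, ?_⟩
        · intro γ x
          show MU_x (k + 1) b (act γ x) = _
          rw [MU_x_act]
          unfold chi
          rw [MU_wt hs, hw]
          simp
        · intro w x _ hn
          exact absurd (by rw [htyp]) hn
        · intro x y hxy
          show (x (k + 1) : EuclideanSpace ℂ (Fin (NN (k + 1)))) b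
            = (y (k + 1) : EuclideanSpace ℂ (Fin (NN (k + 1)))) b
          rw [hxy (k + 1) (by omega)]
      · intro x
        exact MU_x_sum (k + 1) x
    · refine MU_core hGa hLev k s hs (Fin (NN (k + 1)) × Fin (NN j))
        (fun p => MU_x (k + 1) p.1 * star (MU_x j p.2)) ?_ ?_
      · intro p
        refine ⟨?_, ?_, k + j + 2, ?_⟩
        · intro γ x
          show MU_x (k + 1) p.1 (act γ x) * star (MU_x j p.2 (act γ x))
            = _ * (MU_x (k + 1) p.1 x * star (MU_x j p.2 x))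
          rw [MU_x_act, MU_x_act]
          unfold chi
          rw [MU_wt hs, hw]
          simp only [star_mul', RCLike.star_def]
          ring
        · intro w x _ hn
          exact absurd (by rw [htyp]) hn
        · intro x y hxy
          show (x (k + 1) : EuclideanSpace ℂ (Fin (NN (k + 1)))) p.1
              * star ((x j : EuclideanSpace ℂ (Fin (NN j))) p.2)
            = (y (k + 1) : EuclideanSpace ℂ (Fin (NN (k + 1)))) p.1
              * star ((y j : EuclideanSpace ℂ (Fin (NN j))) p.2)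
          rw [hxy (k + 1) (by omega), hxy j (by omega)]
      · intro x
        show ∑ p : Fin (NN (k + 1)) × Fin (NN j),
          star (MU_x (k + 1) p.1 x * star (MU_x j p.2 x)) *
            (MU_x (k + 1) p.1 x * star (MU_x j p.2 x)) = 1
        rw [Fintype.sum_prod_type]
        have h1 : ∀ a : Fin (NN (k + 1)), ∑ b : Fin (NN j),
            star (MU_x (k + 1) a x * star (MU_x j b x)) * (MU_x (k + 1) a x * star (MU_x j b x))
            = star (MU_x (k + 1) a x) * MU_x (k + 1) a x := by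
          intro a
          have h2 : ∀ b : Fin (NN j),
              star (MU_x (k + 1) a x * star (MU_x j b x)) * (MU_x (k + 1) a x * star (MU_x j b x))
              = (star (MU_x (k + 1) a x) * MU_x (k + 1) a x) *
                (star (MU_x j b x) * MU_x j b x) := by
            intro b
            simp only [star_mul', star_star]
            ring
          rw [Finset.sum_congr rfl (fun b _ => h2 b), ← Finset.mul_sum, MU_x_sum, mul_one]
        rw [Finset.sum_congr rfl (fun a _ => h1 a), MU_x_sum]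
  · intro k s hs
    have h1 : Lev k (GG k s s 1) := hLev.2.2.2.2.1 k _ hs _ hs _ (hAdm.2.2.2.2.2.1 s)
    exact StarSubalgebra.le_topologicalClosure _ ((hLev.2.2.2.2.2 _).2 ⟨_, h1⟩)

end

end Pool.OPP
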