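import Mathlib
import Pool.Agent.H7.OPP.Stmts

set_option autoImplicit false

namespace Pool.OPP

open scoped Topology ComplexConjugate

theorem sZz : SZz := by
  intro k O hO hne
  obtain ⟨x, hxO, i, hi⟩ :=
    (TopologicalSpace.denseRange_denseSeq SS).inter_open_nonempty O hO hne
  refine ⟨Nat.pair i k, ?_, ?_⟩
  · calc k ≤ Nat.pair i k := Nat.right_le_pair i k
      _ = 1 * Nat.pair i k := (one_mul _).symm
      _ ≤ (hh + 1) * Nat.pair i k := Nat.mul_le_mul_right _ (Nat.succ_le_succ (Nat.zero_le _))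
  · intro v hv
    have h1 : ((hh + 1) * Nat.pair i k + v) / (hh + 1) = Nat.pair i k := by
      rw [Nat.mul_add_div (Nat.succ_pos hh), Nat.div_eq_of_lt hv, add_zero]
    have h2 : zz ((hh + 1) * Nat.pair i k + v) = TopologicalSpace.denseSeq SS i := by
      unfold zz
      rw [h1, Nat.unpair_pair]
    rw [h2, hi]
    exact hxO

end Pool.OPP
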